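import Mathlib
import Pool.Agent.H925R.Hall.Final

set_option autoImplicit false

/-!
# Hall's conjecture for almost all `d`, for the integral points with `|x| ≤ |d| ^ (10 / 3 - δ)`

For `t ≥ 2` and `ε > 0` there are at most `K D ^ (t / 4 + 1 / 6 + ε)` integral points `(x, y)` on
all the curves `y ^ 2 = x ^ 3 + d`, `0 < |d| ≤ D`, with `d ^ 2 ≤ |x| ≤ D ^ t`. So for `t < 10 / 3`
and almost all `d` every integral point with `|x| ≤ |d| ^ t` satisfies Hall's inequality in the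
strong form `log |x| < 2 log |d|`, and the same is true for almost all elements `d` of every set of
integers with at least `c N ^ σ` elements in `[-N, N]`, if `σ > t / 4 + 1 / 6`.

The proof: for `D ^ s < |x| ≤ D ^ (s + η)` the condition `|d| ≤ D` gives `|d| ≤ |x| ^ (1 / s)`, and
the pairs `(x, y)` with this property are counted in the starting file
`MP_e734ed_nt/SparseExceptions`; the interval `[2, t]` is divided into short intervals `[s, s + η]`.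
-/

namespace Pool.Agent.Results.MP_9d7cd1_nt.AlmostAllMordell

open Filter

/-- The pairs `(x, y)` which, with `d = y ^ 2 - x ^ 3`, satisfy `d ≠ 0`, `|d| ≤ D` and
`d ^ 2 ≤ |x| ≤ D ^ t`. -/
def Exceptional (D t : ℝ) : Set (ℤ × ℤ) :=
  {p | p.2 ^ 2 - p.1 ^ 3 ≠ 0 ∧ |((p.2 ^ 2 - p.1 ^ 3 : ℤ) : ℝ)| ≤ D ∧
    ((p.2 ^ 2 - p.1 ^ 3 : ℤ) : ℝ) ^ 2 ≤ |(p.1 : ℝ)| ∧ |(p.1 : ℝ)| ≤ D ^ t}

/-- Hall's inequality with `ε = 0` and without constant, `log |x| < 2 log |d|`, for all integral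
points `(x, y)` of `y ^ 2 = x ^ 3 + d` with `0 < |x| ≤ |d| ^ t`. -/
def HallUpTo (t : ℝ) (d : ℤ) : Prop :=
  ∀ x y : ℤ, x ≠ 0 → y ^ 2 = x ^ 3 + d → |(x : ℝ)| ≤ |(d : ℝ)| ^ t →
    Real.log |(x : ℝ)| < 2 * Real.log |(d : ℝ)|

/-- The number of elements `d` of `A` with `|d| ≤ N`. -/
noncomputable def count (A : Set ℤ) (N : ℝ) : ℕ := {d : ℤ | d ∈ A ∧ |(d : ℝ)| ≤ N}.ncard

lemma base (ε : ℝ) (hε : 0 < ε) : ∃ K : ℝ, 0 ≤ K ∧ ∀ D : ℝ, 1 ≤ D →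
    (Exceptional D 2).Finite ∧
      ((Exceptional D 2).ncard : ℝ) ≤ K * D ^ ((2 : ℝ) / 4 + 1 / 6 + ε) := by
  obtain ⟨K, hK⟩ := Pool.Agent.H925R.Hall.main 1 (ε / 2) (by linarith)
  refine ⟨max K 0, le_max_right _ _, fun D hD => ?_⟩
  have hD0 : 0 < D := by linarith
  obtain ⟨h1, h2⟩ := hK (1 / 2) (by norm_num) le_rfl (D ^ (2 : ℝ)) (Real.one_le_rpow hD (by norm_num))
  have hsub : Exceptional D 2 ⊆ Pool.Agent.H925R.Hall.Exc 1 (1 / 2) (D ^ (2 : ℝ)) := by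
    rintro ⟨x, y⟩ ⟨e1, e2, e3, e4⟩
    refine ⟨e4, fun h => e1 (by simp only at h ⊢; omega), ?_⟩
    simp only at e3 ⊢
    push_cast at e3
    rw [one_mul, ← Real.sqrt_eq_rpow]
    exact Real.abs_le_sqrt e3
  refine ⟨h1.subset hsub, ?_⟩
  calc ((Exceptional D 2).ncard : ℝ)
      ≤ ((Pool.Agent.H925R.Hall.Exc 1 (1 / 2) (D ^ (2 : ℝ))).ncard : ℝ) := by
        exact_mod_cast Set.ncard_le_ncard hsub h1
    _ ≤ K * (D ^ (2 : ℝ)) ^ ((1 : ℝ) / 4 + 1 / 2 / 6 + ε / 2) := h2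
    _ ≤ max K 0 * (D ^ (2 : ℝ)) ^ ((1 : ℝ) / 4 + 1 / 2 / 6 + ε / 2) := by
        gcongr
        exact le_max_left _ _
    _ = max K 0 * D ^ ((2 : ℝ) / 4 + 1 / 6 + ε) := by
        rw [← Real.rpow_mul hD0.le]
        congr 2
        ring

lemma step (ε : ℝ) (hε : 0 < ε) (s t : ℝ) (hs : 2 ≤ s) (hst : s ≤ t) (hts : t ≤ s + 6 * ε)
    (h : ∃ K : ℝ, 0 ≤ K ∧ ∀ D : ℝ, 1 ≤ D →
      (Exceptional D s).Finite ∧ ((Exceptional D s).ncard : ℝ) ≤ K * D ^ (s / 4 + 1 / 6 + ε)) :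
    ∃ K : ℝ, 0 ≤ K ∧ ∀ D : ℝ, 1 ≤ D →
      (Exceptional D t).Finite ∧ ((Exceptional D t).ncard : ℝ) ≤ K * D ^ (t / 4 + 1 / 6 + ε) := by
  obtain ⟨K₁, hK₁0, hK₁⟩ := h
  have ht : 0 < t := by linarith
  have hs0 : 0 < s := by linarith
  obtain ⟨K₂, hK₂⟩ := Pool.Agent.H925R.Hall.main 1 (ε / (2 * t)) (by positivity)
  refine ⟨K₁ + max K₂ 0, by positivity, fun D hD => ?_⟩
  have hD0 : 0 < D := by linarith
  obtain ⟨f1, f2⟩ := hK₁ D hD
  have h1s : 1 / s ≤ 1 / 2 := one_div_le_one_div_of_le (by norm_num) hs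
  obtain ⟨h1, h2⟩ := hK₂ (1 / s) (by positivity) h1s (D ^ t) (Real.one_le_rpow hD ht.le)
  have hsub : Exceptional D t ⊆ Exceptional D s ∪ Pool.Agent.H925R.Hall.Exc 1 (1 / s) (D ^ t) := by
    rintro ⟨x, y⟩ ⟨e1, e2, e3, e4⟩
    by_cases hx : |(x : ℝ)| ≤ D ^ s
    · exact Or.inl ⟨e1, e2, e3, hx⟩
    · refine Or.inr ⟨e4, fun h => e1 (by simp only at h ⊢; omega), ?_⟩
      simp only at e2 ⊢
      push_cast at e2
      rw [one_mul]
      push Not at hx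
      calc |(y : ℝ) ^ 2 - (x : ℝ) ^ 3| ≤ D := e2
        _ = (D ^ s) ^ (1 / s) := by
            rw [← Real.rpow_mul hD0.le, mul_one_div_cancel hs0.ne', Real.rpow_one]
        _ ≤ |(x : ℝ)| ^ (1 / s) :=
            Real.rpow_le_rpow (by positivity) hx.le (by positivity)
  have hfin := f1.union h1
  refine ⟨hfin.subset hsub, ?_⟩
  have hexp1 : D ^ (s / 4 + 1 / 6 + ε) ≤ D ^ (t / 4 + 1 / 6 + ε) :=
    Real.rpow_le_rpow_of_exponent_le hD (by linarith)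
  have hexp2 : (D ^ t) ^ (1 / 4 + 1 / s / 6 + ε / (2 * t)) ≤ D ^ (t / 4 + 1 / 6 + ε) := by
    rw [← Real.rpow_mul hD0.le]
    refine Real.rpow_le_rpow_of_exponent_le hD ?_
    have e1 : t * (1 / 4 + 1 / s / 6 + ε / (2 * t)) = t / 4 + t / s / 6 + ε / 2 := by
      field_simp
    rw [e1]
    have e2 : t / s ≤ 1 + 3 * ε := by
      rw [div_le_iff₀ hs0]
      nlinarith
    linarith
  calc ((Exceptional D t).ncard : ℝ)
      ≤ ((Exceptional D s ∪ Pool.Agent.H925R.Hall.Exc 1 (1 / s) (D ^ t)).ncard : ℝ) := by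
        exact_mod_cast Set.ncard_le_ncard hsub hfin
    _ ≤ ((Exceptional D s).ncard : ℝ) + ((Pool.Agent.H925R.Hall.Exc 1 (1 / s) (D ^ t)).ncard : ℝ) := by
        exact_mod_cast Set.ncard_union_le _ _
    _ ≤ K₁ * D ^ (s / 4 + 1 / 6 + ε) + K₂ * (D ^ t) ^ (1 / 4 + 1 / s / 6 + ε / (2 * t)) :=
        add_le_add f2 h2
    _ ≤ K₁ * D ^ (t / 4 + 1 / 6 + ε) + max K₂ 0 * D ^ (t / 4 + 1 / 6 + ε) := by
        refine add_le_add (mul_le_mul_of_nonneg_left hexp1 hK₁0) ?_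
        exact mul_le_mul (le_max_left _ _) hexp2 (by positivity) (le_max_right _ _)
    _ = (K₁ + max K₂ 0) * D ^ (t / 4 + 1 / 6 + ε) := by ring

lemma all (ε : ℝ) (hε : 0 < ε) (n : ℕ) : ∀ t : ℝ, 2 ≤ t → t ≤ 2 + 6 * ε * n →
    ∃ K : ℝ, 0 ≤ K ∧ ∀ D : ℝ, 1 ≤ D →
      (Exceptional D t).Finite ∧ ((Exceptional D t).ncard : ℝ) ≤ K * D ^ (t / 4 + 1 / 6 + ε) := by
  induction n with
  | zero =>
    intro t h1 h2
    have : t = 2 := by
      have : t ≤ 2 := by simpa using h2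
      linarith
    rw [this]
    exact base ε hε
  | succ n ih =>
    intro t h1 h2
    push_cast at h2
    rcases le_total t (2 + 6 * ε * n) with h | h
    · exact ih t h1 h
    · have hn : (0 : ℝ) ≤ n := Nat.cast_nonneg n
      have hm : 0 ≤ 6 * ε * n := by positivity
      refine step ε hε (2 + 6 * ε * n) t (by linarith) h (by nlinarith) ?_
      exact ih _ (by linarith) le_rfl

/-- the count of the points -/
lemma points (t ε : ℝ) (ht : 2 ≤ t) (hε : 0 < ε) : ∃ K : ℝ, 0 ≤ K ∧ ∀ D : ℝ, 1 ≤ D →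
    (Exceptional D t).Finite ∧ ((Exceptional D t).ncard : ℝ) ≤ K * D ^ (t / 4 + 1 / 6 + ε) := by
  obtain ⟨n, hn⟩ := exists_nat_ge ((t - 2) / (6 * ε))
  refine all ε hε n t ht ?_
  rw [div_le_iff₀ (by positivity)] at hn
  nlinarith

lemma finite_le (A : Set ℤ) (N : ℝ) : {d : ℤ | d ∈ A ∧ |(d : ℝ)| ≤ N}.Finite := by
  refine (Set.finite_Icc (-⌈|N|⌉) ⌈|N|⌉).subset ?_
  rintro d ⟨-, hd⟩
  have h1 : |(d : ℝ)| ≤ |N| := hd.trans (le_abs_self N)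
  have h2 : |N| ≤ (⌈|N|⌉ : ℝ) := Int.le_ceil _
  rw [abs_le] at h1
  constructor
  · have : (-(⌈|N|⌉ : ℤ) : ℝ) ≤ (d : ℝ) := by linarith
    exact_mod_cast this
  · have : (d : ℝ) ≤ ((⌈|N|⌉ : ℤ) : ℝ) := by linarith
    exact_mod_cast this

lemma curves (t ε : ℝ) (ht : 2 ≤ t) (hε : 0 < ε) : ∃ K : ℝ, 0 ≤ K ∧ ∀ D : ℝ, 1 ≤ D →
    (count {d | d ≠ 0 ∧ ¬ HallUpTo t d} D : ℝ) ≤ K * D ^ (t / 4 + 1 / 6 + ε) := by
  obtain ⟨K, hK0, hK⟩ := points t ε ht hε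
  refine ⟨K, hK0, fun D hD => ?_⟩
  obtain ⟨h1, h2⟩ := hK D hD
  refine le_trans ?_ h2
  have hsub : {d : ℤ | d ∈ {d : ℤ | d ≠ 0 ∧ ¬ HallUpTo t d} ∧ |(d : ℝ)| ≤ D} ⊆
      (fun p : ℤ × ℤ => p.2 ^ 2 - p.1 ^ 3) '' Exceptional D t := by
    rintro d ⟨⟨hd0, hd⟩, hdD⟩
    unfold HallUpTo at hd
    push Not at hd
    obtain ⟨x, y, hx0, hxy, hx, hlog⟩ := hd
    have hdR : (d : ℝ) ≠ 0 := by exact_mod_cast hd0
    have hxR : (x : ℝ) ≠ 0 := by exact_mod_cast hx0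
    have hdpos : 0 < |(d : ℝ)| := abs_pos.mpr hdR
    have hxpos : 0 < |(x : ℝ)| := abs_pos.mpr hxR
    have e : y ^ 2 - x ^ 3 = d := by rw [hxy]; ring
    refine ⟨(x, y), ⟨?_, ?_, ?_, ?_⟩, e⟩
    · simp only
      rw [e]
      exact hd0
    · simp only
      rw [e]
      exact hdD
    · simp only
      rw [e]
      have h3 : Real.log (|(d : ℝ)| ^ 2) ≤ Real.log |(x : ℝ)| := by
        rw [Real.log_pow]
        push_cast
        exact hlog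
      have h4 := (Real.log_le_log_iff (by positivity) hxpos).mp h3
      rwa [sq_abs] at h4
    · simp only
      exact hx.trans (Real.rpow_le_rpow hdpos.le hdD (by linarith))
  unfold count
  calc ({d : ℤ | d ∈ {d : ℤ | d ≠ 0 ∧ ¬ HallUpTo t d} ∧ |(d : ℝ)| ≤ D}.ncard : ℝ)
      ≤ (((fun p : ℤ × ℤ => p.2 ^ 2 - p.1 ^ 3) '' Exceptional D t).ncard : ℝ) := by
        exact_mod_cast Set.ncard_le_ncard hsub (h1.image _)
    _ ≤ ((Exceptional D t).ncard : ℝ) := by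
        exact_mod_cast Set.ncard_image_le h1

lemma density (t : ℝ) (ht : 2 ≤ t) (A : Set ℤ) (σ c N₀ : ℝ) (hσ : t / 4 + 1 / 6 < σ)
    (hc : 0 < c) (hA : ∀ N : ℝ, N₀ ≤ N → c * N ^ σ ≤ count A N) :
    Tendsto (fun N : ℝ => (count {d | d ∈ A ∧ d ≠ 0 ∧ ¬ HallUpTo t d} N : ℝ) / count A N)
      atTop (nhds 0) := by
  set ε : ℝ := (σ - (t / 4 + 1 / 6)) / 2 with hε
  have hε0 : 0 < ε := by
    rw [hε]
    linarith
  obtain ⟨K, hK0, hK⟩ := curves t ε ht hε0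
  have hlim : Tendsto (fun N : ℝ => K / c * N ^ (-ε)) atTop (nhds 0) := by
    have := (tendsto_rpow_neg_atTop hε0).const_mul (K / c)
    simpa using this
  refine squeeze_zero' (Eventually.of_forall fun N => by positivity) ?_ hlim
  filter_upwards [eventually_ge_atTop N₀, eventually_ge_atTop 1] with N hN hN1
  have hNpos : 0 < N := by linarith
  have h1 := hK N hN1
  have h2 := hA N hN
  have h3 : (count {d | d ∈ A ∧ d ≠ 0 ∧ ¬ HallUpTo t d} N : ℝ) ≤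
      count {d | d ≠ 0 ∧ ¬ HallUpTo t d} N := by
    unfold count
    have : {d : ℤ | d ∈ {d | d ∈ A ∧ d ≠ 0 ∧ ¬ HallUpTo t d} ∧ |(d : ℝ)| ≤ N} ⊆
        {d : ℤ | d ∈ {d : ℤ | d ≠ 0 ∧ ¬ HallUpTo t d} ∧ |(d : ℝ)| ≤ N} := by
      rintro d ⟨⟨-, h⟩, h'⟩
      exact ⟨h, h'⟩
    exact_mod_cast Set.ncard_le_ncard this (finite_le _ N)
  have h4 : 0 < c * N ^ σ := by positivity
  have h5 : (0 : ℝ) < count A N := lt_of_lt_of_le h4 h2
  rw [div_le_iff₀ h5]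
  calc (count {d | d ∈ A ∧ d ≠ 0 ∧ ¬ HallUpTo t d} N : ℝ)
      ≤ K * N ^ (t / 4 + 1 / 6 + ε) := h3.trans h1
    _ = K / c * N ^ (-ε) * (c * N ^ σ) := by
        have e1 : N ^ (t / 4 + 1 / 6 + ε) = N ^ (-ε) * N ^ σ := by
          rw [← Real.rpow_add hNpos]
          congr 1
          rw [hε]
          ring
        rw [e1]
        field_simp
    _ ≤ K / c * N ^ (-ε) * count A N := by
        refine mul_le_mul_of_nonneg_left h2 ?_
        positivity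

lemma hallUpTo_mono {t t' : ℝ} (h : t ≤ t') {d : ℤ} (hd : d ≠ 0) (H : HallUpTo t' d) :
    HallUpTo t d := by
  intro x y hx hxy hxt
  refine H x y hx hxy (hxt.trans ?_)
  have h1 : (1 : ℝ) ≤ |(d : ℝ)| := by
    have : (1 : ℤ) ≤ |d| := Int.one_le_abs hd
    exact_mod_cast this
  exact Real.rpow_le_rpow_of_exponent_le h1 h

lemma density' (t : ℝ) (A : Set ℤ) (σ c N₀ : ℝ) (hσ2 : 2 / 3 < σ) (hσ : t / 4 + 1 / 6 < σ)
    (hc : 0 < c) (hA : ∀ N : ℝ, N₀ ≤ N → c * N ^ σ ≤ count A N) :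
    Tendsto (fun N : ℝ => (count {d | d ∈ A ∧ d ≠ 0 ∧ ¬ HallUpTo t d} N : ℝ) / count A N)
      atTop (nhds 0) := by
  have h := density (max t 2) (le_max_right _ _) A σ c N₀ (by
    rcases le_total t 2 with h | h
    · rw [max_eq_right h]
      linarith
    · rw [max_eq_left h]
      exact hσ) hc hA
  refine squeeze_zero (fun N => by positivity) (fun N => ?_) h
  have h3 : (count {d | d ∈ A ∧ d ≠ 0 ∧ ¬ HallUpTo t d} N : ℝ) ≤
      count {d | d ∈ A ∧ d ≠ 0 ∧ ¬ HallUpTo (max t 2) d} N := by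
    unfold count
    have : {d : ℤ | d ∈ {d | d ∈ A ∧ d ≠ 0 ∧ ¬ HallUpTo t d} ∧ |(d : ℝ)| ≤ N} ⊆
        {d : ℤ | d ∈ {d : ℤ | d ∈ A ∧ d ≠ 0 ∧ ¬ HallUpTo (max t 2) d} ∧ |(d : ℝ)| ≤ N} := by
      rintro d ⟨⟨ha, h0, h⟩, h'⟩
      exact ⟨⟨ha, h0, fun H => h (hallUpTo_mono (le_max_left _ _) h0 H)⟩, h'⟩
    exact_mod_cast Set.ncard_le_ncard this (finite_le _ N)
  exact div_le_div_of_nonneg_right h3 (by positivity)

lemma count_univ (N : ℝ) (hN : 0 ≤ N) : N ≤ count Set.univ N ∧ (count Set.univ N : ℝ) ≤ 2 * N + 1 := by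
  have e : {d : ℤ | d ∈ (Set.univ : Set ℤ) ∧ |(d : ℝ)| ≤ N} = ↑(Finset.Icc (-⌊N⌋) ⌊N⌋) := by
    ext d
    simp only [Set.mem_univ, true_and, Set.mem_ofPred_eq, Finset.coe_Icc, Set.mem_Icc, abs_le]
    constructor
    · rintro ⟨h1, h2⟩
      refine ⟨?_, Int.le_floor.mpr h2⟩
      have : -d ≤ ⌊N⌋ := Int.le_floor.mpr (by push_cast; linarith)
      linarith
    · rintro ⟨h1, h2⟩
      have h3 : (-d : ℤ) ≤ ⌊N⌋ := by linarith
      have h4 := Int.le_floor.mp h3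
      push_cast at h4
      exact ⟨by linarith, Int.le_floor.mp h2⟩
  have h0 : 0 ≤ ⌊N⌋ := Int.floor_nonneg.mpr hN
  have hc : (count Set.univ N : ℝ) = 2 * (⌊N⌋ : ℝ) + 1 := by
    unfold count
    rw [e, Set.ncard_coe_finset, Int.card_Icc]
    have : ((⌊N⌋ + 1 - -⌊N⌋).toNat : ℤ) = 2 * ⌊N⌋ + 1 := by
      rw [Int.toNat_of_nonneg (by linarith)]
      ring
    exact_mod_cast this
  rw [hc]
  have h1 := Int.lt_floor_add_one N
  have h2 := Int.floor_le N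
  have h3 : (0 : ℝ) ≤ ⌊N⌋ := by exact_mod_cast h0
  exact ⟨by linarith, by linarith⟩

/-- **Hall's conjecture for almost all `d` in the range `|x| ≤ |d| ^ t`, `t < 10 / 3`.**

1. The integral points `(x, y)` with `d ^ 2 ≤ |x| ≤ D ^ t` on all curves `y ^ 2 = x ^ 3 + d`,
   `0 < |d| ≤ D`, are `O (D ^ (t / 4 + 1 / 6 + ε))` in number.
2. If `A` has at least `c N ^ σ` elements in `[-N, N]` for large `N`, `σ > max (t, 2) / 4 + 1 / 6`, then
   almost all `d` in `A` satisfy `HallUpTo t d`.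
3. For `t < 10 / 3` almost all integers `d` satisfy `HallUpTo t d`. -/
theorem result :
    (∀ t ε : ℝ, 2 ≤ t → 0 < ε → ∃ K : ℝ, ∀ D : ℝ, 1 ≤ D →
      (Exceptional D t).Finite ∧ ((Exceptional D t).ncard : ℝ) ≤ K * D ^ (t / 4 + 1 / 6 + ε)) ∧
    (∀ (t : ℝ) (A : Set ℤ) (σ c N₀ : ℝ), 2 / 3 < σ → t / 4 + 1 / 6 < σ → 0 < c →
      (∀ N : ℝ, N₀ ≤ N → c * N ^ σ ≤ count A N) →
      Tendsto (fun N : ℝ => (count {d | d ∈ A ∧ d ≠ 0 ∧ ¬ HallUpTo t d} N : ℝ) / count A N)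
        atTop (nhds 0)) ∧
    (∀ t : ℝ, t < 10 / 3 →
      Tendsto (fun N : ℝ => (count {d | d ≠ 0 ∧ ¬ HallUpTo t d} N : ℝ) / N) atTop (nhds 0)) := by
  refine ⟨fun t ε ht hε => ?_, fun t A σ c N₀ h2 h hc hA => density' t A σ c N₀ h2 h hc hA,
    fun t ht => ?_⟩
  · obtain ⟨K, -, hK⟩ := points t ε ht hε
    exact ⟨K, hK⟩
  · have h := density' t Set.univ 1 1 0 (by norm_num) (by linarith) one_pos (fun N hN => by
      rw [one_mul, Real.rpow_one]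
      exact (count_univ N hN).1)
    have h' := h.const_mul (3 : ℝ)
    rw [mul_zero] at h'
    refine squeeze_zero' ?_ ?_ h'
    · filter_upwards [eventually_ge_atTop 0] with N hN
      positivity
    · filter_upwards [eventually_ge_atTop 1] with N hN
      have hN0 : 0 < N := by linarith
      obtain ⟨h1, h2⟩ := count_univ N hN0.le
      have e : {d : ℤ | d ∈ (Set.univ : Set ℤ) ∧ d ≠ 0 ∧ ¬ HallUpTo t d} =
          {d | d ≠ 0 ∧ ¬ HallUpTo t d} := by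
        ext d
        simp
      rw [e]
      have h5 : (0 : ℝ) < count Set.univ N := lt_of_lt_of_le hN0 h1
      have h6 : (0 : ℝ) ≤ count {d | d ≠ 0 ∧ ¬ HallUpTo t d} N := Nat.cast_nonneg _
      rw [← mul_div_assoc, div_le_div_iff₀ hN0 h5]
      nlinarith

end Pool.Agent.Results.MP_9d7cd1_nt.AlmostAllMordell
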